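import Pool.Agent.Lib_helper24.ABS.Endgame
import Pool.Agent.Lib_helper84.SGN.DefsB

/-!
# SGN part D, core (Selberg's argument for a family with a large sieve inequality). Definitions.

`q` is the conductor, `L = log q`. A member of the family is a sequence `lam` with
`|lam(m)| ≤ m^A`, a density `g` (the Mellin density of the gamma factor), and the coefficients `al`
of a Dirichlet polynomial supported on `S ⊂ [1, q^η]`.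
-/

set_option autoImplicit false

namespace Pool.Agent.SGD

open Complex MeasureTheory Filter Topology
open Pool.Agent.SQS (hat)
open Pool.Agent.ABS (LData Nice oddZ win)
open scoped ENNReal

/-- the kernel `e^{-Nv}` (`v ≥ 0`), `e^{v/4}` (`v < 0`) -/
noncomputable def G0 (N v : ℝ) : ℝ := if 0 ≤ v then Real.exp (-(N * v)) else Real.exp (v / 4)

/-- `G0` as a complex function -/
noncomputable def gz (N v : ℝ) : ℂ := (G0 N v : ℂ)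

/-- the constants of part D -/
structure Par where
  κ : ℝ
  T : ℝ
  Sg : ℝ
  c₁ : ℝ
  M : ℝ → ℝ → ℝ
  A : ℝ
  η : ℝ
  κ' : ℝ
  δ : ℝ
  C₂ : ℝ
  c₀ : ℝ
  hκ : 0 < κ
  hκ1 : κ ≤ 1
  hT : 0 ≤ T
  hSg : 3 * A + 5 ≤ Sg
  hc₁ : 0 < c₁
  hA : 0 ≤ A
  hη : 0 < η
  hη1 : η ≤ 1 / 8
  hκ' : 0 < κ'
  hκ'1 : κ' ≤ 1 / 4
  hδ : 0 < δ
  hδ1 : δ ≤ 1
  hC₂ : 0 ≤ C₂
  hc₀ : 0 < c₀

/-- the class of the densities `g`: decay `≪ e^{-Bv}` for all `B ≥ -κ`; `g = G0 * k` with `k` of the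
same decay; the Mellin transform has no zeros and is bounded from below -/
structure GCl (κ T Sg c₁ : ℝ) (M : ℝ → ℝ → ℝ) (g : ℝ → ℂ) : Prop where
  cont : Continuous g
  le : ∀ B : ℝ, -κ ≤ B → ∀ v : ℝ, ‖g v‖ ≤ M 0 B * Real.exp (-(B * v))
  ker : ∀ N : ℝ, 1 ≤ N → ∃ k : ℝ → ℂ, Continuous k ∧
    (∀ B : ℝ, -κ ≤ B → ∀ v : ℝ, ‖k v‖ ≤ M N B * Real.exp (-(B * v))) ∧
    ∀ v : ℝ, g v = ∫ y : ℝ, k y * gz N (v - y)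
  low : ∀ σ t : ℝ, 0 ≤ σ → σ ≤ Sg → |t| ≤ T + 1 →
    c₁ ≤ ‖∫ v : ℝ, g v * cexp ((σ + t * I) * v)‖
  nz : ∀ s : ℂ, 0 ≤ s.re → ∫ v : ℝ, g v * cexp (s * v) ≠ 0

namespace Par

variable (p : Par)

/-- the exponent `N = 16 (A + 3) / κ'` of the kernel `G0` -/
noncomputable def N : ℝ := 16 * (p.A + 3) / p.κ'

/-- the decay of all functions after convolution -/
noncomputable def E (v : ℝ) : ℝ := Real.exp (-(p.κ / 2 * |v|))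

/-- the class of densities -/
def GC (g : ℝ → ℂ) : Prop := GCl p.κ p.T p.Sg p.c₁ p.M g

end Par

/-- `D0` for an arbitrary density: `∑_m lam(m) m^{-1/2} g(v + log m)` -/
noncomputable def DD0 (lam : ℕ → ℂ) (g : ℝ → ℂ) (v : ℝ) : ℂ :=
  ∑' m : ℕ, lam (m + 1) * (((m : ℝ) + 1) ^ (-(1 / 2) : ℝ) : ℝ) * g (v + Real.log (m + 1))

/-- coefficients of the mollifier, normalised -/
noncomputable def bb (al : ℕ → ℂ) (k : ℕ) : ℂ := al k * (((k : ℝ) ^ (-(1 / 2) : ℝ) : ℝ) : ℂ)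

/-- `log k` -/
noncomputable def ll (k : ℕ) : ℝ := Real.log k

/-- `∑_{k,k' ∈ S, m k / k' ≤ R} F(m k / k') lam(m) al(k) conj al(k') (m k k')^{-1/2}` -/
noncomputable def SG (S : Finset ℕ) (R : ℝ) (lam al : ℕ → ℂ) (F : ℝ → ℂ) : ℂ :=
  ∑ k ∈ S, ∑ k' ∈ S, ∑ m ∈ Finset.Icc 1 ⌊R * k' / k⌋₊,
    F ((m : ℝ) * k / k') * (lam m * al k * starRingEnd ℂ (al k')) *
      ((((m : ℝ) * k * k') ^ (-(1 / 2) : ℝ) : ℝ) : ℂ)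

/-- `∑_{k,k' ∈ S, m k k' ≤ R} F(m k k') lam(m) al(k) al(k') (m k k')^{-1/2}` -/
noncomputable def SH (S : Finset ℕ) (R : ℝ) (lam al : ℕ → ℂ) (F : ℝ → ℂ) : ℂ :=
  ∑ k ∈ S, ∑ k' ∈ S, ∑ m ∈ Finset.Icc 1 ⌊R / (k * k')⌋₊,
    F ((m : ℝ) * k * k') * (lam m * al k * al k') *
      ((((m : ℝ) * k * k') ^ (-(1 / 2) : ℝ) : ℝ) : ℂ)

open Classical in
/-- the integers `1 < l ≤ q` all of whose prime factors are `> q^θ` -/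
noncomputable def RG (θ : ℝ) (q : ℕ) : Finset ℕ :=
  (Finset.Icc 2 q).filter fun l => SGN.Rough ((q : ℝ) ^ θ) l

/-- the quadratic form of the large sieve inequality -/
noncomputable def AR (θ : ℝ) (q : ℕ) (Cρ : ℝ) (Q : Finset ℝ) (W : ℝ → ℝ) (F : ℝ → ℂ) : ℝ :=
  ∑ r ∈ Q, ‖F r‖ ^ 2 * W r + Cρ * ∑ l ∈ RG θ q, 1 / (l : ℝ) * ∑ r ∈ Q, ‖F (l * r)‖ ^ 2 * W r

/-- a mollified family with the two consequences of the large sieve inequality -/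
structure DFam (p : Par) (θ Cρ dV : ℝ) (q : ℕ) (Φ : ℝ) {ι : Type} (s : Finset ι) (om : ι → ℝ)
    (lam al : ι → ℕ → ℂ) (S : Finset ℕ) (QG QH : Finset ℝ) (W V : ℝ → ℝ) : Prop where
  om_nonneg : ∀ i ∈ s, 0 ≤ om i
  om_sum : ∑ i ∈ s, om i ≤ Φ
  lam_one : ∀ i ∈ s, lam i 1 = 1
  lam_le : ∀ i ∈ s, ∀ m : ℕ, 1 ≤ m → ‖lam i m‖ ≤ (m : ℝ) ^ p.A
  al_one : ∀ i ∈ s, al i 1 = 1
  al_le : ∀ i ∈ s, ∀ k ∈ S, ‖al i k‖ ≤ (k : ℝ) ^ p.A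
  S_one : 1 ∈ S
  S_le : ∀ k ∈ S, 1 ≤ k ∧ (k : ℝ) ≤ (q : ℝ) ^ p.η
  lsG : ∀ F : ℝ → ℂ, (∀ r, ‖F r‖ ≤ 1) →
    ∑ i ∈ s, om i * ‖SG S ((q : ℝ) ^ (1 / 2 + p.κ')) (lam i) (al i) F‖ ^ 2 ≤
      Φ * (AR θ q Cρ QG W F + (q : ℝ) ^ (-p.δ))
  lsH : ∀ F : ℝ → ℂ, (∀ r, ‖F r‖ ≤ 1) →
    ∑ i ∈ s, om i * ‖SH S ((q : ℝ) ^ (1 / 2 + p.κ')) (lam i) (al i) F‖ ^ 2 ≤
      Φ * (AR θ q Cρ QH V F + (q : ℝ) ^ (-p.δ))
  QG_pos : ∀ r ∈ QG, 0 < r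
  W_nonneg : ∀ r ∈ QG, 0 ≤ W r
  W_sum : ∑ r ∈ QG, W r ≤ p.C₂
  W_tilt : ∑ r ∈ QG, r ^ (2 * p.c₀ / (θ * Real.log q)) * W r ≤ p.C₂
  QH_one : ∀ r ∈ QH, 1 ≤ r
  V_nonneg : ∀ r ∈ QH, 0 ≤ V r
  V_one : V 1 ≤ p.C₂
  V_sum : ∑ r ∈ QH.filter (fun r => r ≠ 1), V r ≤ dV

/-- the series `∑_{k,k',m} al(k) conj al(k') lam(m) (m k k')^{-1/2} G0(z + log(m k/k') - L/2)` -/
noncomputable def PF (N L : ℝ) (S : Finset ℕ) (lam al : ℕ → ℂ) (z : ℝ) : ℂ :=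
  ∑ k ∈ S, ∑ k' ∈ S, bb al k * starRingEnd ℂ (bb al k') *
    DD0 lam (gz N) (z + (ll k - ll k' - L / 2))

/-- the series `∑ al(k) al(k') lam(m) (m k k')^{-1/2} G0(z + log(m k k') - L/2)`, over
`(m, k, k') ≠ (1, 1, 1)` -/
noncomputable def PH (N L : ℝ) (S : Finset ℕ) (lam al : ℕ → ℂ) (z : ℝ) : ℂ :=
  ∑ k ∈ S, ∑ k' ∈ S, bb al k * bb al k' *
    DD0 lam (gz N) (z + (ll k + ll k' - L / 2)) - gz N (z - L / 2)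

/-- `F(r) = G0(z + log r - L/2)` -/
noncomputable def FG (N L z r : ℝ) : ℂ := gz N (z + Real.log r - L / 2)

/-- the same without `r = 1` -/
noncomputable def FH (N L z r : ℝ) : ℂ := if r = 1 then 0 else gz N (z + Real.log r - L / 2)

/-- the quadratic form after convolution (`|F(r)|²` becomes `E(x + log r - L/2)`); `Q₁` is the set of
the `r` for `l = 1` -/
noncomputable def AE (p : Par) (θ : ℝ) (q : ℕ) (Cρ : ℝ) (Q₁ Q : Finset ℝ) (W : ℝ → ℝ)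
    (x : ℝ) : ℝ :=
  ∑ r ∈ Q₁, p.E (x + Real.log r - Real.log q / 2) * W r +
    Cρ * ∑ l ∈ RG θ q, 1 / (l : ℝ) *
      ∑ r ∈ Q, p.E (x + Real.log (l * r) - Real.log q / 2) * W r

/-- what is known about a member `X` of the family -/
structure Mem (p : Par) (q : ℕ) (S : Finset ℕ) (lam al : ℕ → ℂ) (g : ℝ → ℂ) (X : LData) :
    Prop where
  lam_one : lam 1 = 1
  lam_le : ∀ m : ℕ, 1 ≤ m → ‖lam m‖ ≤ (m : ℝ) ^ p.A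
  al_one : al 1 = 1
  al_le : ∀ k ∈ S, ‖al k‖ ≤ (k : ℝ) ^ p.A
  S_one : 1 ∈ S
  S_le : ∀ k ∈ S, 1 ≤ k ∧ (k : ℝ) ≤ (q : ℝ) ^ p.η
  gc : p.GC g
  dens : X.dens = DD0 lam g
  cond : X.A = Real.log q

end Pool.Agent.SGD
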